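import Pool.Agent.V11237.Poly

/-!
An instance of polyamorous scheduling with poly density `5/6` that is not schedulable.
-/

set_option autoImplicit false

open Pool.Agent.V11237.Poly

/-- There is an instance whose poly density is exactly `5/6` and which is not schedulable; it has five
vertices and five edges and its graph is bipartite. -/
theorem Pool.Agent.Results.MP_90a930_lc.NotFiveSixths.result :
    ∃ I : Instance (Fin 5), I.E.card = 5 ∧ (∃ A : Set (Fin 5), ∀ u v, s(u, v) ∈ I.E → (u ∈ A ↔ v ∉ A)) ∧
      IsPolyDensity I (5 / 6) ∧ ¬ Schedulable I := by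
  refine ⟨ex, by decide, ⟨{v | v < 2}, ?_⟩, polyDensity, not_schedulable⟩
  change ∀ u v : Fin 5, s(u, v) ∈ ex.E → (u < 2 ↔ ¬ v < 2)
  decide
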